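import Pool.Agent.H96.SM.MainD

/-!
# Odd perfect numbers with few large prime factors

For every `m` there is `C` such that for all `y ≥ 16` and `1 ≤ j ≤ y` at most
`y ^ C * (C y (log y) ^ 5 / j) ^ j` odd perfect numbers have at most `m` prime factors larger than `y` and
at most `j` other prime factors.  With `j = π(y)`: at most `exp (C' y log log y / log y)` odd perfect
numbers have at most `m` prime factors larger than `y`.

Proof.  Let `N` be such a number and `B` its part composed of the primes larger than `y`.

* (`H96/SM/ExtB`, `ExtC`) If `T` is a proper subset of the set of the prime factors of `B`, then a further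
  prime factor of `B` divides `σ(q ^ v)` for a component `q ^ v` of `N` with `q ≤ y` or `q` in `T`;
  otherwise the product of the other components of `B` divides its own divisor sum. Since
  `log N ≤ y ^ K` (library theorem `ManyLargePrimes`), there are only `y ^ K'` possibilities for `B`.
* Given `B`, let `k - 1` be the exponent of the prime `q ≤ y` in `N`. The prime factors `r` of `Φ_k(q)`, a
  divisor of `σ(q ^ (k - 1))`, are at most `y` or divide `B`, and modulo nearly all of them `q` has order
  `k`. If one of them is larger than `y`, then `k` is the order of `q` modulo a prime factor of `B`: at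
  most `m` values.
* (`card_BigS`) For `r ≤ y` the numbers `x` modulo `r ^ V` with `x ^ (r - 1) = 1` form a group with `r - 1`
  elements, so there are only `O(log y)` primes `q ≤ y` for which `q ^ (r - 1) - 1` is divisible by a
  power of `r` larger than `y ^ (log y)`. As `r` determines the order `k`, such powers occur for
  `O(y log y)` pairs `(q, k)` only.
* (`dichQ`, `sum_ord`) For all other pairs `Φ_k(q) > 2 ^ φ(k)` has at least `c k / (log y) ^ 3` prime
  factors `r = 1 (mod k)`, `r ≤ y`. For fixed `k` there are `O(y log y)` pairs `(q, r)` with
  `q ^ k = 1 (mod r)`; so there are at most `C y (log y) ^ 4 / k` such `q`.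
* (`sum_MQ`) So the sum over the primes `q ≤ y` of the number `M(q)` of admissible exponents is at most
  `D = C y (log y) ^ 5`.
* (`kraft`) In Wirsing's reconstruction of `N` from `B > 1` and the exponents the next prime is known
  before its exponent. So the sum of `∏ M(q)⁻¹`, `q ∣ N`, `q ≤ y`, over all `N` with the given `B` is at
  most `1` (at most `y` if `B = 1`). If `N` has `i` prime factors `q ≤ y`, then `∏ M(q) ≤ (D / i) ^ i`.
-/

set_option autoImplicit false

namespace Pool.Agent.Results.MP_f02ea4_nt.FewLargePrimes

/-- For every `m` there is `C > 0` such that for all integers `y ≥ 16` and `1 ≤ j ≤ y` a finite set with at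
most `y ^ C * (C y (log y) ^ 5 / j) ^ j` elements contains all odd perfect numbers which have at most `m`
prime factors larger than `y` and at most `j` prime factors that are at most `y`. -/
theorem result (m : ℕ) : ∃ C : ℝ, 0 < C ∧ ∀ y j : ℕ, 16 ≤ y → 1 ≤ j → j ≤ y →
    ∃ F : Finset ℕ, (F.card : ℝ) ≤ (y : ℝ) ^ C * (C * y * (Real.log y) ^ 5 / j) ^ j ∧
      ∀ N : ℕ, Odd N → N.Perfect → (N.primeFactors.filter (fun p => y < p)).card ≤ m →
        (N.primeFactors.filter (fun p => p ≤ y)).card ≤ j → N ∈ F :=
  Pool.Agent.H96.SM.mainD m

end Pool.Agent.Results.MP_f02ea4_nt.FewLargePrimes
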