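import Mathlib
import Pool.Agent.H24.Opn.Fin

/-!
# The largest prime factor of an odd perfect number is at least `(log N) ^ (2 / 3 - ε)`

For every rational number `α = a / b` and every `ε > 0` all but finitely many solutions `N` of
`σ(N) = α N` satisfy `log N ≤ ω(N) P ^ (1 / 2 + ε)`, where `P` is the largest prime factor of `N`:
the average exponent in the prime factorisation of `N` is at most `P ^ (1 / 2 + ε)`. In particular
`P ≥ (log N) ^ (2 / 3 - ε)`.  For `α = 2` this covers the odd perfect numbers.  Primitive prime
divisors of `p ^ (e + 1) - 1` (Zsigmondy) give only `e < P`, so `log N ≤ ω(N) P log P` and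
`P ≥ (log N) ^ (1 / 2)`.

Proof.  Consider the matrix `M(p, q) = v_q(σ(p ^ e_p)) log q`, `p`, `q` prime factors of
`N = ∏ p ^ e_p`. The sum of row `p` is at most `e_p log p + log 2`, and, as `N ∣ b σ(N)`, the sum of
column `q` is at least `e_q log q - O(1)`.

* Columns.  The numbers `x` modulo `q ^ V` with `x ^ (q - 1) = 1` form a group with `q - 1` elements;
  it cannot contain many products of few small primes.  So a column has at most one entry larger than
  `q ^ (1/2 + ε)`, and boundedly many entries larger than `P ^ ε`.
* Rows.  The entries of row `p` below `P ^ ε` have sum at most `P ^ (1/2 + 2 ε)`: the order of `p` modulo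
  `q` is a divisor `d` of `e_p + 1`, the `q` with `d ≤ √P` contribute at most `∑ d log p`, and there are
  at most `P / d` primes `q ≤ P` with order `d`.
* Entropy.  If the total mass is larger than `ω(N) P ^ (1/2 + 20 ε)`, then, comparing
  `∑ e_p log p log (e_p log p)` for the rows and for the columns, there is a row with
  only one essential entry: `p ^ (e + 1) - 1 = u q ^ a` with `log u ≤ P ^ (-δ) e`.
* This contradicts a lower bound of Baker's type for `|n log p - a log q - log u|`, linear in `log u`
  (`Pool.Agent.H24.Opn.Bak.bakerB`): if `p ^ n = u q ^ a + 1`, then `n < Y ^ 22 (log u + 2)` for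
  `Y ≥ Y₀, log p, log q, log n`.  (Siegel's lemma, extrapolation to half integers, descent with the
  field generated by `√p` and `√q`.)
-/

namespace Pool.Agent.Results.MP_f02ea4_nt.LargestPrimeFactor

/-- **Main theorem.** Let `a`, `b` be natural numbers, `b > 0`, and `ε > 0`.  Every large `N` with
`b σ(N) = a N` (for `a = 2`, `b = 1`: every large perfect number) has a prime factor `p` with
`log N ≤ ω(N) p ^ (1 / 2 + ε)` and `p ≥ (log N) ^ (2 / 3 - ε)`. -/
theorem result (a b : ℕ) (hb : 0 < b) (ε : ℝ) (hε : 0 < ε) :
    ∃ N₀ : ℕ, ∀ N : ℕ, N₀ ≤ N → b * ∑ d ∈ N.divisors, d = a * N →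
      ∃ p ∈ N.primeFactors,
        Real.log N ≤ N.primeFactors.card * (p : ℝ) ^ (1 / 2 + ε) ∧
          Real.log N ^ (2 / 3 - ε) ≤ p :=
  Pool.Agent.H24.Opn.Fin.fin a b hb ε hε

end Pool.Agent.Results.MP_f02ea4_nt.LargestPrimeFactor
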