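import Mathlib
import Pool.Agent.H24.Opn.RadAsym

/-!
# The radical of an odd perfect number is at least `exp (0.72 (log log N) ^ 2)`

For every rational number `α = a / b` and every `ε > 0` all but finitely many solutions `N` of
`σ(N) = α N` satisfy `log rad(N) ≥ (1 / (2 log 2) - ε) (log log N) ^ 2`.  For `α = 2` this covers the
odd perfect numbers.  Only `rad(N) ≥ exp (c log log N log log log N)` follows from the bound
`N < 2 ^ (4 ^ ω(N))` of Heath-Brown, Cook and Nielsen.

Proof.  Let `k = ω(N)`, `R = rad(N)`, let `A` be a set of prime factors of `N`, `T` the complement.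

* Columns.  For primes `q`, `p` the `q`-part of `σ(p ^ e)` is at most `p ^ q` times the `q`-part of
  `e + 1` (lifting lemma; the order of `p` modulo `q` is less than `q`).  As `N ∣ b σ(N)`, this gives
  `∏_{q ∈ A} q ^ v_q(N) ≤ b τ(N) R ^ (∑_{q ∈ A} q)`: large components need large primes.
* Descent.  `F = b ∏_A σ(q ^ v_q) ∏_T p` and `G = a ∏_A q ^ v_q ∏_T (p - 1)` are integers, `F > G` and
  `F ∏_T (1 - p ^ (- v_p - 1)) = G`.  So `p ^ (v_p + 1) ≤ k F` for some `p ∈ T`, which is moved to `A`.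
* Together (`main_nat`, `main_log`):
  `log N ≤ 2 ^ |T| (log (a b k τ(N)) + (1 + ∑_{q ∈ A} q) log R)`.  If `log R` is at most
  `(log log N) ^ 2`, this shows that the `(m + 1)`-th largest prime factor of `N` is at least
  `(log N) ^ (1 - o(1)) / 2 ^ m`, for all `m < (1 - o(1)) log log N / log 2`.
-/

namespace Pool.Agent.Results.MP_f02ea4_nt.RadicalLowerBound

/-- **Main theorem.** Let `a`, `b` be natural numbers, `b > 0`, and `ε > 0`.  All large `N` with
`b σ(N) = a N` (for `a = 2`, `b = 1`: all large perfect numbers) satisfy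
`log rad(N) ≥ (1 / (2 log 2) - ε) (log log N) ^ 2`. -/
theorem result (a b : ℕ) (hb : 0 < b) (ε : ℝ) (hε : 0 < ε) :
    ∃ N₀ : ℕ, ∀ N : ℕ, N₀ ≤ N → b * ∑ d ∈ N.divisors, d = a * N →
      (1 / (2 * Real.log 2) - ε) * Real.log (Real.log N) ^ 2 ≤
        Real.log ((∏ p ∈ N.primeFactors, p : ℕ) : ℝ) :=
  Pool.Agent.H24.Opn.asym a b hb ε hε

end Pool.Agent.Results.MP_f02ea4_nt.RadicalLowerBound
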