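import Pool.Agent.H96.SI.Main

set_option autoImplicit false

/-!
# Odd perfect numbers in short intervals and in residue classes

Wirsing's theorem bounds the number of odd perfect numbers up to `x` by `x ^ (W / log log x)`. We show
that every set of odd perfect numbers up to `X` in which any two members have a greatest common divisor
smaller than `Y` has at most `C Y ^ ((log 2 / 2 + ε) / log log Y) + (1 / log 2 + ε) log log log X`
members. Hence Wirsing's theorem holds in all short intervals and all reduced residue classes.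

Proof. Let `z = (log Y) ^ (1 - δ)`.

* A divisor `D ≥ Y` determines the member which it divides. Members with a prime factor `< z`: either
  the `z`-smooth part is at least `Y`, then it has a divisor in `[Y, Y z]`; or it is a unitary divisor
  `A`, `1 < A < Y`. A unitary divisor `A ≠ 1, N` of `N` determines a further prime factor of `N` (an odd
  prime factor of `σ(A)` which does not divide `A`), so that `N` is determined by `A` and the sequence of
  the following exponents, until their product with `A` exceeds `Y`; all but one of them are even.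
* Members `N` all of whose prime factors are at least `z`: the sum of `1 / p` over the prime factors
  `p ≤ w` of `N`, `w` about `log X`, is nearly `log 2`. Every prime `p < Y` divides at most
  `Y ^ ((log 2 / 2 + ε) / log log Y)` of them by the same argument, every prime `p ≥ Y` divides at most one
  of them, and `∑ 1 / p` over `p ≤ w` is `log log w + O(1)` (Mertens).
-/

namespace Pool.Agent.Results.MP_f02ea4_nt.ShortIntervals

open Finset Pool.Agent.H96.SI

theorem spacing {x H q a : ℕ} (haq : a.Coprime q) {N N' : ℕ}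
    (hN1 : x < N) (hN2 : N ≡ a [MOD q]) (hN'1 : N' ≤ x + H * q)
    (hN'2 : N' ≡ a [MOD q]) (hlt : N < N') : Nat.gcd N N' < H := by
  have hNa : N ≡ N' [MOD q] := hN2.trans hN'2.symm
  have h1 : q ∣ N' - N := (Nat.modEq_iff_dvd' hlt.le).1 hNa
  have h2 : Nat.gcd N N' ∣ N' - N := Nat.dvd_sub (Nat.gcd_dvd_right _ _) (Nat.gcd_dvd_left _ _)
  have hNq : N.Coprime q := by
    have h3 : Nat.gcd N q = Nat.gcd a q := hN2.gcd_eq
    rw [Nat.coprime_iff_gcd_eq_one, h3]
    exact haq
  have h4 : (Nat.gcd N N').Coprime q := Nat.Coprime.coprime_dvd_left (Nat.gcd_dvd_left _ _) hNq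
  have h5 : Nat.gcd N N' * q ∣ N' - N := h4.mul_dvd_of_dvd_of_dvd h2 h1
  have h6 : Nat.gcd N N' * q ≤ N' - N := Nat.le_of_dvd (by omega) h5
  by_contra h
  push Not at h
  have h7 : H * q ≤ Nat.gcd N N' * q := Nat.mul_le_mul_right _ h
  omega

/-- Intervals and residue classes. -/
theorem intervals (ε : ℝ) (C : ℝ)
    (hC : ∀ (X Y : ℕ) (S : Finset ℕ), 16 ≤ X → 16 ≤ Y →
      (∀ N ∈ S, Odd N ∧ N.Perfect ∧ N ≤ X) →
      (∀ N ∈ S, ∀ N' ∈ S, N ≠ N' → Nat.gcd N N' < Y) →
      (S.card : ℝ) ≤ C * (Y : ℝ) ^ ((Real.log 2 / 2 + ε) / Real.log (Real.log Y)) +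
        (1 / Real.log 2 + ε) * Real.log (Real.log (Real.log X))) :
    ∀ x H q a : ℕ, 16 ≤ H → 1 ≤ q → a.Coprime q →
      ({N : ℕ | x < N ∧ N ≤ x + H * q ∧ N ≡ a [MOD q] ∧ Odd N ∧ N.Perfect}.ncard : ℝ) ≤
        C * (H : ℝ) ^ ((Real.log 2 / 2 + ε) / Real.log (Real.log H)) +
        (1 / Real.log 2 + ε) * Real.log (Real.log (Real.log (x + H * q))) := by
  classical
  intro x H q a hH hq haq
  set S := (Ioc x (x + H * q)).filter (fun N => N ≡ a [MOD q] ∧ Odd N ∧ N.Perfect) with hS
  have hset : {N : ℕ | x < N ∧ N ≤ x + H * q ∧ N ≡ a [MOD q] ∧ Odd N ∧ N.Perfect} =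
      (S : Set ℕ) := by
    ext N
    simp only [hS, Set.mem_ofPred_eq, coe_filter, mem_Ioc]
    tauto
  have hX : 16 ≤ x + H * q := by
    have : 16 * 1 ≤ H * q := Nat.mul_le_mul hH hq
    omega
  have h1 := hC (x + H * q) H S hX hH (by
    intro N hN
    rw [hS, mem_filter, mem_Ioc] at hN
    exact ⟨hN.2.2.1, hN.2.2.2, hN.1.2⟩) (by
    intro N hN N' hN' hne
    rw [hS, mem_filter, mem_Ioc] at hN hN'
    rcases lt_or_gt_of_ne hne with h | h
    · exact spacing haq hN.1.1 hN.2.1 hN'.1.2 hN'.2.1 h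
    · rw [Nat.gcd_comm]
      exact spacing haq hN'.1.1 hN'.2.1 hN.1.2 hN.2.1 h)
  rw [hset, Set.ncard_coe_finset]
  push_cast at h1
  exact h1

/-- Lengths of intervals with many odd perfect numbers. -/
theorem gaps (ε : ℝ) (hε : 0 < ε) : ∃ M₀ : ℝ,
    ∀ (x y : ℕ) (M : ℝ), M₀ ≤ M → 3 * Real.log (Real.log (Real.log (x + y))) ≤ M →
      M ≤ ({N : ℕ | x < N ∧ N ≤ x + y ∧ Odd N ∧ N.Perfect}.ncard : ℝ) →
      M ^ ((2 / Real.log 2 - ε) * Real.log (Real.log M)) ≤ y := by
  have hlog2 := Real.log_two_gt_d9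
  have hlog2' := Real.log_two_lt_d9
  set c := Real.log 2 / 2 with hc
  have hc0 : 0 < c := by rw [hc]; linarith
  set ε₁ := min (0.05 : ℝ) (ε * c ^ 2 / 2) with hε₁
  have hε₁0 : 0 < ε₁ := by rw [hε₁]; positivity
  have hε₁1 : ε₁ ≤ 0.05 := min_le_left _ _
  have hε₁2 : ε₁ ≤ ε * c ^ 2 / 2 := min_le_right _ _
  set ε₂ := ε * c / 2 with hε₂
  have hε₂0 : 0 < ε₂ := by rw [hε₂]; positivity
  obtain ⟨C, hC0, hC⟩ := gcd_version ε₁ hε₁0
  have hint := intervals ε₁ C hC
  refine ⟨max 16 (Real.exp (|Real.log (2 * C)| / ε₂)), fun x y M hM hlll hcount => ?_⟩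
  have hM16 : 16 ≤ M := (le_max_left _ _).trans hM
  have hMe : Real.exp (|Real.log (2 * C)| / ε₂) ≤ M := (le_max_right _ _).trans hM
  -- the number of all integers in the interval
  have hfin : {N : ℕ | x < N ∧ N ≤ x + y ∧ Odd N ∧ N.Perfect} ⊆ ((Ioc x (x + y) : Finset ℕ) : Set ℕ) := by
    intro N hN
    rw [mem_coe, mem_Ioc]
    exact ⟨hN.1, hN.2.1⟩
  have hcard : {N : ℕ | x < N ∧ N ≤ x + y ∧ Odd N ∧ N.Perfect}.ncard ≤ y := by
    refine (Set.ncard_le_ncard hfin (Finset.finite_toSet _)).trans ?_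
    rw [Set.ncard_coe_finset, Nat.card_Ioc]
    omega
  have hMy : M ≤ y := hcount.trans (by exact_mod_cast hcard)
  have hy16 : 16 ≤ y := by
    have : (16 : ℝ) ≤ y := hM16.trans hMy
    exact_mod_cast this
  have h1 := hint x y 1 0 hy16 le_rfl (Nat.coprime_one_right 0)
  have hset : {N : ℕ | x < N ∧ N ≤ x + y * 1 ∧ N ≡ 0 [MOD 1] ∧ Odd N ∧ N.Perfect} =
      {N : ℕ | x < N ∧ N ≤ x + y ∧ Odd N ∧ N.Perfect} := by
    ext N
    simp only [Set.mem_ofPred_eq, mul_one]
    have : N ≡ 0 [MOD 1] := Nat.modEq_one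
    tauto
  rw [hset] at h1
  have hcast : (x : ℝ) + (y : ℝ) * ((1 : ℕ) : ℝ) = (x : ℝ) + y := by push_cast; ring
  rw [hcast] at h1
  have hlll0 : 0 ≤ Real.log (Real.log (Real.log ((x : ℝ) + y))) := by
    have := lll_nonneg (X := x + y) (by omega)
    push_cast at this
    exact this
  have h2 : (1 / Real.log 2 + ε₁) * Real.log (Real.log (Real.log ((x : ℝ) + y))) ≤ M / 2 := by
    have h3 : 1 / Real.log 2 + ε₁ ≤ 1.5 := by
      have h4 : 1 / Real.log 2 ≤ 1.45 := by
        rw [div_le_iff₀ (by linarith)]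
        linarith
      linarith
    have h5 := mul_le_mul_of_nonneg_right h3 hlll0
    linarith
  have h3 : M / 2 ≤ C * (y : ℝ) ^ ((c + ε₁) / Real.log (Real.log y)) := by linarith
  have hy0 : (0 : ℝ) < y := by linarith
  have hM0 : 0 < M := by linarith
  have hlly : Real.log (Real.log M) ≤ Real.log (Real.log y) := by
    apply Real.log_le_log
    · exact Real.log_pos (by linarith)
    · exact Real.log_le_log hM0 hMy
  have hllM : 0 < Real.log (Real.log M) := by
    have h4 : Real.log 16 ≤ Real.log M := Real.log_le_log (by norm_num) hM16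
    have h5 := (loglog16 (le_refl 16)).2
    push_cast at h5
    exact Real.log_pos (by linarith)
  have hlogM : 0 < Real.log M := Real.log_pos (by linarith)
  have hlogy : 0 < Real.log y := Real.log_pos (by linarith)
  -- take logarithms
  have h4 : Real.log M ≤ Real.log (2 * C) + Real.log y * ((c + ε₁) / Real.log (Real.log y)) := by
    have h5 : M ≤ 2 * C * (y : ℝ) ^ ((c + ε₁) / Real.log (Real.log y)) := by linarith
    have h6 : Real.log M ≤ Real.log (2 * C * (y : ℝ) ^ ((c + ε₁) / Real.log (Real.log y))) :=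
      Real.log_le_log hM0 h5
    rw [Real.log_mul (by positivity) (Real.rpow_pos_of_pos hy0 _).ne', Real.log_rpow hy0] at h6
    linarith
  have h5 : Real.log (2 * C) ≤ ε₂ * Real.log M := by
    have h6 : |Real.log (2 * C)| / ε₂ ≤ Real.log M := by
      rw [Real.le_log_iff_exp_le hM0]
      exact hMe
    rw [div_le_iff₀ hε₂0] at h6
    have := le_abs_self (Real.log (2 * C))
    linarith
  have hpos : 0 < Real.log (Real.log y) := lt_of_lt_of_le hllM hlly
  have h6 : (1 - ε₂) * Real.log M * Real.log (Real.log y) ≤ (c + ε₁) * Real.log y := by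
    have h7 : (1 - ε₂) * Real.log M ≤ Real.log y * ((c + ε₁) / Real.log (Real.log y)) := by linarith
    have h8 := mul_le_mul_of_nonneg_right h7 hpos.le
    have h9 : Real.log y * ((c + ε₁) / Real.log (Real.log y)) * Real.log (Real.log y) =
        (c + ε₁) * Real.log y := by
      field_simp
    linarith
  -- conclusion
  have h7 : (2 / Real.log 2 - ε) * (c + ε₁) ≤ 1 - ε₂ := by
    have h8 : 2 / Real.log 2 = 1 / c := by
      rw [hc]
      field_simp
    rw [h8]
    have h9 : (1 / c - ε) * (c + ε₁) = 1 + ε₁ / c - ε * c - ε * ε₁ := by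
      field_simp
      ring
    rw [h9]
    have h10 : ε₁ / c ≤ ε * c / 2 := by
      rw [div_le_iff₀ hc0]
      calc ε₁ ≤ ε * c ^ 2 / 2 := hε₁2
        _ = ε * c / 2 * c := by ring
    have h11 : 0 < ε * ε₁ := by positivity
    rw [hε₂]
    linarith
  have h8 : (2 / Real.log 2 - ε) * Real.log (Real.log M) * Real.log M ≤ Real.log y := by
    by_cases hneg : 2 / Real.log 2 - ε ≤ 0
    · have : (2 / Real.log 2 - ε) * Real.log (Real.log M) * Real.log M ≤ 0 := by
        have h9 : (2 / Real.log 2 - ε) * Real.log (Real.log M) ≤ 0 :=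
          mul_nonpos_of_nonpos_of_nonneg hneg hllM.le
        exact mul_nonpos_of_nonpos_of_nonneg h9 hlogM.le
      linarith
    · push Not at hneg
      have hce : 0 < c + ε₁ := by linarith
      have h9 : (2 / Real.log 2 - ε) * Real.log (Real.log M) * Real.log M * (c + ε₁) ≤
          (c + ε₁) * Real.log y := by
        calc (2 / Real.log 2 - ε) * Real.log (Real.log M) * Real.log M * (c + ε₁)
            = ((2 / Real.log 2 - ε) * (c + ε₁)) * (Real.log M * Real.log (Real.log M)) := by ring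
          _ ≤ (1 - ε₂) * (Real.log M * Real.log (Real.log M)) :=
              mul_le_mul_of_nonneg_right h7 (by positivity)
          _ ≤ (1 - ε₂) * (Real.log M * Real.log (Real.log y)) := by
              apply mul_le_mul_of_nonneg_left (mul_le_mul_of_nonneg_left hlly hlogM.le)
              have : 0 < (2 / Real.log 2 - ε) * (c + ε₁) := by positivity
              linarith
          _ = (1 - ε₂) * Real.log M * Real.log (Real.log y) := by ring
          _ ≤ _ := h6
      rw [mul_comm (c + ε₁)] at h9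
      exact le_of_mul_le_mul_right h9 hce
  calc M ^ ((2 / Real.log 2 - ε) * Real.log (Real.log M))
      = Real.exp (Real.log M * ((2 / Real.log 2 - ε) * Real.log (Real.log M))) :=
        Real.rpow_def_of_pos hM0 _
    _ ≤ Real.exp (Real.log y) := by
        apply Real.exp_le_exp.2
        linarith
    _ = y := Real.exp_log hy0

/-- **Main theorem.** For every `ε > 0` there are constants `C` and `M₀` such that the following holds.

(1) Let `S` be a finite set of odd perfect numbers `N ≤ X` in which any two different members have a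
greatest common divisor smaller than `Y`. Then `S` has at most
`C Y ^ ((log 2 / 2 + ε) / log log Y) + (1 / log 2 + ε) log log log X` members.

(2) If `a` and `q` are coprime, the interval `(x, x + H q]` contains at most
`C H ^ ((log 2 / 2 + ε) / log log H) + (1 / log 2 + ε) log log log (x + H q)` odd perfect numbers
congruent to `a` modulo `q`.

(3) An interval `(x, x + y]` that contains at least `M` odd perfect numbers, `M ≥ M₀` and
`M ≥ 3 log log log (x + y)`, has length `y ≥ M ^ ((2 / log 2 - ε) log log M)`. -/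
theorem result (ε : ℝ) (hε : 0 < ε) : ∃ C M₀ : ℝ, 0 < C ∧
    (∀ (X Y : ℕ) (S : Finset ℕ), 16 ≤ X → 16 ≤ Y →
      (∀ N ∈ S, Odd N ∧ N.Perfect ∧ N ≤ X) →
      (∀ N ∈ S, ∀ N' ∈ S, N ≠ N' → Nat.gcd N N' < Y) →
      (S.card : ℝ) ≤ C * (Y : ℝ) ^ ((Real.log 2 / 2 + ε) / Real.log (Real.log Y)) +
        (1 / Real.log 2 + ε) * Real.log (Real.log (Real.log X))) ∧
    (∀ x H q a : ℕ, 16 ≤ H → 1 ≤ q → a.Coprime q →
      ({N : ℕ | x < N ∧ N ≤ x + H * q ∧ N ≡ a [MOD q] ∧ Odd N ∧ N.Perfect}.ncard : ℝ) ≤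
        C * (H : ℝ) ^ ((Real.log 2 / 2 + ε) / Real.log (Real.log H)) +
        (1 / Real.log 2 + ε) * Real.log (Real.log (Real.log (x + H * q)))) ∧
    (∀ (x y : ℕ) (M : ℝ), M₀ ≤ M → 3 * Real.log (Real.log (Real.log (x + y))) ≤ M →
      M ≤ ({N : ℕ | x < N ∧ N ≤ x + y ∧ Odd N ∧ N.Perfect}.ncard : ℝ) →
      M ^ ((2 / Real.log 2 - ε) * Real.log (Real.log M)) ≤ y) := by
  obtain ⟨C, hC0, hC⟩ := gcd_version ε hε
  obtain ⟨M₀, hM₀⟩ := gaps ε hε
  exact ⟨C, M₀, hC0, hC, intervals ε C hC, hM₀⟩

end Pool.Agent.Results.MP_f02ea4_nt.ShortIntervals
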